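import Mathlib
import Pool.Agent.Helper92.PO.Stmts

namespace Pool.Agent.Helper92.PO

open Function Pool.Agent.Helper52.Poly

theorem palg_ub {γ δ : Type} [Enc γ] [Enc δ] {m : δ → ℕ} (hm : UB m) {p : γ → δ} (hp : PF p) :
    UB (fun c => m (p c)) := by
  obtain ⟨h1, Q, h2⟩ := hm
  obtain ⟨R, hR⟩ := hp.size_le
  refine ⟨h1.comp hp, Q.comp R, fun c => ?_⟩
  rw [Polynomial.eval_comp]
  exact (h2 (p c)).trans (pmono Q (hR c))

theorem st_PALG (h1 : ST_PTAB) (h2 : ST_PROW) (h3 : ST_PRNG) (h4 : ST_PWD) (h5 : ST_PSUM)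
    (h6 : ST_PLOOK) (h7 : ST_PNN) (_h8 : ST_PCEL) : ST_PALG := by
  unfold ST_PALG
  have hwd : UB (fun c : Inp => wd (nn c)) := (h4 Inp nn h7.1).1
  have hr : PF (fun c : Inp => List.range (wd (nn c))) := h3 Inp _ hwd
  -- the initial state
  have hst : PF (fun c : Inp => st0 (nn c)) := by
    have e1 : PF (fun c : Inp => (List.range (wd (nn c))).map
        fun _ : ℕ => (((0, 0), 0) : Lab × ℕ)) :=
      PF.map hr (PF.const ((((0, 0), 0) : Lab × ℕ)))
    have e2 : PF (fun c : Inp => (((0, 0), List.replicate (wd (nn c)) ((0, 0), 0)) : Sta)) := by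
      refine PF.pair (PF.const ((0, 0) : Lab)) (e1.congr fun c => ?_)
      rw [List.map_const', List.length_range]
    exact e2
  have hrow : PF (fun c : Inp => rows (nn c)) := h2
  have htab : PF (fun x : (Inp × ℕ) × Row => look (tab (nn x.1.1) x.1.2 x.2 (cells (nn x.1.1)))
      (st0 (nn x.1.1))) :=
    h6 ((Inp × ℕ) × Row) _ _ h1
      (PF.comp (g := fun c : Inp => st0 (nn c)) hst (PF.fst' PF.fst))
  have hin : PF (fun y : Inp × ℕ => ((rows (nn y.1)).map fun ξ =>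
      look (tab (nn y.1) y.2 ξ (cells (nn y.1))) (st0 (nn y.1))).sum) :=
    h5 (Inp × ℕ) _ (PF.map (PF.comp (g := fun c : Inp => rows (nn c)) hrow PF.fst) htab)
  exact h5 Inp _ (PF.map hr hin)

end Pool.Agent.Helper92.PO
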