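import Mathlib
import Pool.Agent.Helper92.PO.Stmts

namespace Pool.Agent.Helper92.PO

open Function Pool.Agent.Helper52.Poly

/-- one step of the look up -/
def plk_step (s : ((Row × ℕ) × Lab) × (ℕ × Lab)) : Lab :=
  if s.2.1 = s.1.1.2 then s.2.2 else s.1.2

theorem plk_fold (k : ℕ) (r : Row) (ξ : Row) :
    ξ.reverse.foldl (fun u x => plk_step ((((r, k), u), x))) ((0, 0) : Lab) = lk ξ k := by
  induction ξ with
  | nil => rfl
  | cons p t ih =>
    rw [List.reverse_cons, List.foldl_append, ih]
    simp only [List.foldl_cons, List.foldl_nil]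
    rfl

theorem plk_core : PF (fun x : Row × ℕ => lk x.1 x.2) := by
  have hstep : PF plk_step := by
    unfold plk_step
    exact PF.ite (b := fun s : ((Row × ℕ) × Lab) × (ℕ × Lab) => s.2.1 = s.1.1.2)
      (PF.eqNat (PF.fst' PF.snd) (PF.snd' (PF.fst' PF.fst))) (PF.snd' PF.snd) (PF.snd' PF.fst)
  have key := PF.foldlEnv (init := fun _ : Row × ℕ => ((0, 0) : Lab))
    (lst := fun x : Row × ℕ => x.1.reverse) (step := plk_step) (PF.const _)
    (PF.reverse PF.fst) hstep (fun c u => u = (0, 0) ∨ sz u ≤ sz c)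
    (Polynomial.X + 3) (fun c => Or.inl rfl) (fun c u x hu hx => by
      unfold plk_step
      split_ifs
      · right
        have h1 : x ∈ c.1 := by simpa using hx
        have h2 := sz_mem_le h1
        have h3 : sz x = 1 + sz x.1 + sz x.2 := sz_pair x.1 x.2
        have h4 : sz c = 1 + sz c.1 + sz c.2 := sz_pair c.1 c.2
        show sz x.2 ≤ sz c
        omega
      · exact hu) (fun c u hu => by
      simp only [Polynomial.eval_add, Polynomial.eval_X, Polynomial.eval_ofNat]
      rcases hu with h | h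
      · rw [h]
        have h1 : sz ((0, 0) : Lab) = 1 + sz (0 : ℕ) + sz (0 : ℕ) := sz_pair 0 0
        have h2 : sz (0 : ℕ) ≤ 4 * (0 : ℕ).size + 1 := sz_nat_le 0
        rw [Nat.size_zero] at h2
        omega
      · omega)
  refine key.congr fun x => ?_
  congr 1
  exact (plk_fold x.2 x.1 x.1).symm

theorem st_PLK : ST_PLK := by
  intro γ _ ξ k hξ hk
  exact plk_core.comp (PF.pair hξ hk)

end Pool.Agent.Helper92.PO
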