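import Mathlib
import Pool.Agent.Helper92.PO.Stmts

namespace Pool.Agent.Helper92.PO

open Function Pool.Agent.Helper52.Poly

section
variable {γ β : Type} [Enc γ] [Enc β]

theorem prng_fold {β : Type} (l : List β) (k : ℕ) :
    l.foldl (fun (u : List ℕ) _ => u ++ [u.length]) (List.range k) = List.range (k + l.length) := by
  induction l generalizing k with
  | nil => rfl
  | cons x l ih =>
    rw [List.foldl_cons, List.length_range, ← List.range_succ, ih, List.length_cons]
    congr 1
    omega

theorem prng_szlist {α : Type} [Enc α] (l : List α) (B : ℕ) (h : ∀ a ∈ l, sz a ≤ B) :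
    sz l ≤ 1 + l.length * (1 + B) := by
  induction l with
  | nil => simp [sz_nil]
  | cons a l ih =>
    rw [sz_cons, List.length_cons, Nat.succ_mul]
    have h1 := h a List.mem_cons_self
    have h2 := ih (fun b hb => h b (List.mem_cons_of_mem _ hb))
    omega

theorem prng_szrange (n : ℕ) : sz (List.range n) ≤ 1 + n * (1 + (4 * n + 1)) := by
  have h := prng_szlist (List.range n) (4 * n + 1) (fun a ha => by
    rw [List.mem_range] at ha
    have h1 := sz_nat_le a
    have h2 : a.size ≤ a := by
      rw [Nat.size_le]
      exact Nat.lt_two_pow_self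
    omega)
  rwa [List.length_range] at h

theorem prng_range {l : γ → List β} (hl : PF l) : PF (fun c => List.range (l c).length) := by
  obtain ⟨Ql, hQl⟩ := hl.size_le
  have hstep : PF (fun s : List ℕ × β => s.1 ++ [s.1.length]) :=
    PF.append PF.fst (PF.cons (PF.length PF.fst) (PF.const []))
  have key := PF.foldl (init := fun _ : γ => ([] : List ℕ)) (lst := l)
    (step := fun s : List ℕ × β => s.1 ++ [s.1.length]) (PF.const []) hl hstep
    (1 + Ql * (1 + (4 * Ql + 1))) (fun c l1 l2 h => by
      have e1 : l1.foldl (fun (u : List ℕ) _ => u ++ [u.length]) [] = List.range l1.length := by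
        have := prng_fold l1 0
        rwa [zero_add] at this
      refine le_trans (le_of_eq (congrArg sz e1)) ?_
      refine le_trans (prng_szrange _) ?_
      have h5 : l1.length ≤ Ql.eval (sz c) := by
        have e1 := length_le_sz (l c)
        have e2 := hQl c
        have e3 : (l c).length = l1.length + l2.length := by rw [h, List.length_append]
        omega
      have h6 : l1.length * (1 + (4 * l1.length + 1)) ≤
          Ql.eval (sz c) * (1 + (4 * Ql.eval (sz c) + 1)) :=
        Nat.mul_le_mul h5 (by omega)
      simp only [Polynomial.eval_add, Polynomial.eval_mul, Polynomial.eval_one,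
        Polynomial.eval_ofNat]
      omega)
  refine key.congr fun c => ?_
  have := prng_fold (l c) 0
  rw [zero_add] at this
  rw [← this]
  rfl

theorem prng_mullen {α : Type} (a : List α) (b : List Bool) (u : List Bool) :
    (a.foldl (fun (u : List Bool) _ => u ++ b) u).length = u.length + a.length * b.length := by
  induction a generalizing u with
  | nil => simp
  | cons x a ih =>
    rw [List.foldl_cons, ih, List.length_append, List.length_cons]
    ring

theorem prng_szapp (u v : List Bool) : sz (u ++ v) ≤ sz u + sz v := by
  induction u with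
  | nil =>
    rw [List.nil_append]
    omega
  | cons a u ih =>
    rw [List.cons_append, sz_cons, sz_cons]
    omega

theorem prng_mul {a b : γ → List Bool} (ha : PF a) (hb : PF b) :
    ∃ g : γ → List Bool, PF g ∧ ∀ c, (g c).length = (a c).length * (b c).length := by
  obtain ⟨Q, hQ⟩ := hb.size_le
  have hstep : PF (fun s : (γ × List Bool) × Bool => s.1.2 ++ b s.1.1) :=
    PF.append (PF.snd' PF.fst) (hb.comp (PF.fst' PF.fst))
  have key := PF.foldlEnvGrow (init := fun _ : γ => ([] : List Bool)) (lst := a)
    (step := fun s : (γ × List Bool) × Bool => s.1.2 ++ b s.1.1) (PF.const []) ha hstep Q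
    (fun c u x _ => by
      have h1 := prng_szapp u (b c)
      have h2 := hQ c
      show sz (u ++ b c) ≤ sz u + Q.eval (sz c)
      omega)
  refine ⟨_, key, fun c => ?_⟩
  have := prng_mullen (a c) (b c) []
  rw [List.length_nil, zero_add] at this
  exact this

theorem prng_big (Q : Polynomial ℕ) :
    ∃ g : γ → List Bool, PF g ∧ ∀ c, (g c).length = Q.eval (sz c) := by
  induction Q using Polynomial.induction_on' with
  | add p q hp hq =>
    obtain ⟨g, hg, h1⟩ := hp
    obtain ⟨g', hg', h2⟩ := hq
    refine ⟨fun c => g c ++ g' c, PF.append hg hg', fun c => ?_⟩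
    rw [List.length_append, h1, h2, Polynomial.eval_add]
  | monomial n a =>
    have hX : ∃ g : γ → List Bool, PF g ∧ ∀ c, (g c).length = sz c ^ n := by
      induction n with
      | zero => exact ⟨fun _ => [true], PF.const [true], fun c => by simp⟩
      | succ n ih =>
        obtain ⟨g, hg, h1⟩ := ih
        obtain ⟨g', hg', h2⟩ := prng_mul hg (PF.ser (α := γ))
        refine ⟨g', hg', fun c => ?_⟩
        rw [h2, h1, pow_succ]
        rfl
    obtain ⟨g, hg, h1⟩ := hX
    obtain ⟨g', hg', h2⟩ := prng_mul (PF.const (α := γ) (List.replicate a true)) hg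
    refine ⟨g', hg', fun c => ?_⟩
    rw [h2, h1, List.length_replicate, Polynomial.eval_monomial]

end

theorem st_PRNG : ST_PRNG := by
  intro γ _ f hf
  obtain ⟨hf1, Q, hQ⟩ := hf
  obtain ⟨g, hg, hl⟩ := prng_big (γ := γ) Q
  refine (PF.take hf1 (prng_range hg)).congr fun c => ?_
  rw [List.take_range, hl, Nat.min_eq_left (hQ c)]

end Pool.Agent.Helper92.PO
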